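import Pool.Agent.helper37.NA.Spec

set_option autoImplicit false

namespace Pool.Agent.NAB

open Pool.Agent.helper58.DC Pool.Agent.DI Pool.Agent.GR Pool.Agent.OB Pool.Agent.DR Pool.Agent.FI Pool.Agent.FI3 Pool.Agent.FI4 Pool.Agent.FI4I Pool.Agent.LE Pool.Agent.L5

theorem NQD (hNEG : NEG_stmt) (hNEC : NEC_stmt) (hNDG : NDG_stmt) (hNUF : NUF_stmt) (hDEX : DEX_stmt) (hDGL : DGL_stmt) (hCNTL : CNTL_stmt)
    (hTRN : Pool.Agent.FI.TRN_stmt) (hCJG : CJG_stmt) (hSYL : SYL_stmt) : NQD_stmt := by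
  intro p e m M hS hme G _ _ L E η hη ψ hψ hSB D y hD z hz hzc hzo hcard hE
  have hp : p.Prime := hS.pr
  have : Fact p.Prime := ⟨hp⟩
  obtain ⟨n1, n2, n3, n4, n5, n6, n7⟩ := hNEG p e hp G z
  obtain ⟨s1, s2, s3, s4, s5, s6, s7, s8, s9⟩ := hSYL p G
  obtain ⟨c1, c2, c3, c4⟩ := hNEC p e m hp hme G D hD.pg hcard z hz hzc hzo
  rw [hE] at c2 c3 c4
  have hpe : PEl p z := ⟨e, by rw [← hzo]; exact pow_orderOf_eq_one z⟩
  have hco : z * y = y * z := by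
    have h1 := (hD.le hz).2
    exact Subgroup.mem_centralizer_singleton_iff.1 h1
  have hzH : z ∈ L ⊓ nz E := (hD.le hz).1
  have hN := n4 y hpe hD.reg hco
  have hU : Ucl p e m M (L ⊓ nz E) η z y :=
    { pe := hpe
      re := hD.reg
      co := hco
      zm := hzH
      xm := hD.mem
      od := hzo
      ne := hNDG p M hS G (L ⊓ nz E) η hη D y hD z hz hzc
      cd := ((s4 _ _ (hN (L ⊓ nz E)).2.1).trans hD.card.symm.le).trans hcard }
  have hU' : Ucl p e m M L ψ z y := hNUF p e m M hS hme G L E η hη z y hU hE ψ hSB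
  obtain ⟨DB, xB, hDB, -⟩ := hDEX p M hS G L ψ hψ
  have hle : Nat.card DB ≤ Nat.card D := by
    have h1 := hDB.min (z * y) (L.mul_mem hU'.zm hU'.xm) hU'.ne
    have h2 : Cz L (z * y) ≤ Cz (L ⊓ nz E) y := by
      intro w hw
      have h3 := (hN L).2.2.1 hw
      rw [hE] at h3
      exact ⟨⟨hw.1, h3⟩, ((hN L).2.1 hw).2⟩
    exact (h1.trans (s4 _ _ h2)).trans hD.card.symm.le
  obtain ⟨θ, hθ, hθη⟩ := hDGL p M hS G (L ⊓ nz E) η hη D y hD
  have hHD : (L ⊓ nz E) ⊓ cz D = L ⊓ cz D := by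
    apply le_antisymm
    · exact inf_le_inf_right _ inf_le_left
    · exact le_inf (le_inf inf_le_left (inf_le_right.trans c4)) inf_le_right
  have hθ' : θ ∈ IrrOn (L ⊓ cz D) := by
    rw [← hHD]
    exact hθ
  have hθψ : SB M L θ ψ :=
    ((hTRN G M (L ⊓ nz E) L inf_le_left θ η ψ (fun x hx => hθ.1 x fun h => hx h.1) (fun x hx => hη.1 x hx) hθη).2.1 hSB)
  have hDL : D ≤ L := fun d hd => (hD.le hd).1.1
  obtain ⟨l, hl, hlD⟩ := hCNTL p M hS G L D hD.pg hDL θ hθ' ψ hθψ DB xB hDB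
  have hsub : cjS l D ≤ DB := by
    rintro w ⟨r, hr, rfl⟩
    exact hlD r hr
  have heq : cjS l D = DB := by
    refine Subgroup.eq_of_le_of_card_ge hsub ?_
    rw [(s5 D l).2]
    exact hle
  obtain ⟨j1, j2, j3, j4, j5, j6, -⟩ := hCJG G M p l⁻¹ L
  have h4 := j4 ψ DB xB hDB
  rw [(j6 (L.inv_mem hl) ψ).2] at h4
  have h5 : funMap (MulAut.conj l⁻¹) ψ = ψ := by
    funext x
    have h6 := cjF_apply l⁻¹ ψ x
    rw [show funMap (MulAut.conj l⁻¹) ψ x = cjF l⁻¹ ψ x from rfl, h6, inv_inv]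
    exact IrrOn_conj hψ hl x
  rw [h5] at h4
  have h7 : DB.map (MulAut.conj l⁻¹).toMonoidHom = D := by
    ext x
    rw [show x ∈ DB.map (MulAut.conj l⁻¹).toMonoidHom ↔ l⁻¹⁻¹ * x * l⁻¹ ∈ DB from mem_cjS, ← heq, mem_cjS, inv_inv]
    rw [show l⁻¹ * (l * x * l⁻¹) * l = x by group]
  rw [h7] at h4
  exact ⟨_, h4⟩

end Pool.Agent.NAB
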